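import Pool.Agent.Helper99.PG.GoalsF

/-!
# Packet PG-FL (MP_2b0227_gt): labels of the regions of the composite
-/

set_option autoImplicit false

namespace Pool.Agent.Helper62.PG

open Pool.Agent.Helper36.SC Pool.Agent.Helper37.Arb Pool.Agent.Helper52.C2
open Pool.Agent.Helper99.PG
open scoped Classical

theorem sameSide_cases {V : Type} (S : Skel V) {x y : Option V × Corner}
    (h : S.D.SameSide x y) :
    (∃ v, x = (v, .front) ∧ y = (S.D.overNext v, .back)) ∨
    (∃ v, x = (v, .right) ∧ y = (S.D.overNext v, .right)) ∨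
    (∃ v, x = (v, .left) ∧ y = (S.D.underNext v, .left)) ∨
    (∃ v, x = (v, .front) ∧ y = (S.D.underNext v, .back)) := by
  rcases h with v | v | v | v
  · exact Or.inl ⟨v, by simp [S.pos], by simp [S.pos]⟩
  · exact Or.inr (Or.inl ⟨v, by simp [S.pos], by simp [S.pos]⟩)
  · exact Or.inr (Or.inr (Or.inl ⟨v, by simp [S.pos], by simp [S.pos]⟩))
  · exact Or.inr (Or.inr (Or.inr ⟨v, by simp [S.pos], by simp [S.pos]⟩))

theorem region_of_sameSide {V : Type} (D : AltDiagram V) {x y : V × Corner}
    (h : D.SameSide x y) : D.region x = D.region y :=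
  Quotient.sound (Relation.EqvGen.rel _ _ h)

section

variable {V : Type} (S : Skel V) (M : V → Marked) (F : V → Type)
  (G : ∀ v, Faces true (M v).D (M v).l (M v).r (F v))

/-- the corner regions of the tangle -/
def cor (v : V) : Corner → F v
  | .front => (G v).N
  | .back => (G v).S
  | .left => (G v).W
  | .right => (G v).E

theorem lab_cor (v : V) (X : Corner) :
    lab S M F G v (cor M F G v X) = .inl (S.D.region (some v, X)) := by
  have h1 := (G v).NS
  have h2 := (G v).NW
  have h3 := (G v).NE
  have h4 := (G v).SW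
  have h5 := (G v).SE
  have h6 := (G v).WE
  cases X <;> simp [lab, cor, h1, h2, h3, h4, h5, h6, h1.symm, h2.symm, h3.symm, h4.symm,
    h5.symm, h6.symm]

theorem lab_cases (v : V) (x : F v) :
    (∃ X, x = cor M F G v X) ∨
      ∃ h : x ≠ (G v).N ∧ x ≠ (G v).S ∧ x ≠ (G v).W ∧ x ≠ (G v).E,
        lab S M F G v x = .inr ⟨v, x, h⟩ := by
  by_cases h : x ≠ (G v).N ∧ x ≠ (G v).S ∧ x ≠ (G v).W ∧ x ≠ (G v).E
  · exact Or.inr ⟨h, by simp [lab, h]⟩
  · left
    by_cases h1 : x = (G v).N
    · exact ⟨.front, h1⟩
    by_cases h2 : x = (G v).S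
    · exact ⟨.back, h2⟩
    by_cases h3 : x = (G v).W
    · exact ⟨.left, h3⟩
    by_cases h4 : x = (G v).E
    · exact ⟨.right, h4⟩
    exact absurd ⟨h1, h2, h3, h4⟩ h

/-- the label of a corner of the composite -/
noncomputable def LL (x : (Σ v, (M v).V) × Corner) : FF S M F G :=
  lab S M F G x.1.1 ((G x.1.1).ρ (x.1.2, x.2))

theorem LL_inc (v : V) (c : (M v).V × Corner) :
    LL S M F G (inc v c) = lab S M F G v ((G v).ρ c) := rfl

end

theorem fLab : GoalFLab := by
  intro hExt hEdge V _ _ S M F G v v' c c'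
  rw [← LL_inc, ← LL_inc]
  have sound : ∀ x y, Opn true (fill S.D S.l S.r M).D (fill S.D S.l S.r M).l
      (fill S.D S.l S.r M).r x y → LL S M F G x = LL S M F G y := by
    intro x y hxy
    rw [hEdge S M x y] at hxy
    rcases hxy with ⟨v, c, c', h, rfl, rfl⟩ | ⟨v, w, h, ⟨rfl, rfl⟩ | ⟨rfl, rfl⟩⟩ |
      ⟨v, w, h, ⟨rfl, rfl⟩ | ⟨rfl, rfl⟩⟩
    · rw [LL_inc, LL_inc, (G v).sound _ _ h]
    · rw [LL_inc, LL_inc, (G v).l1, (G w).l2]
      have h1 := lab_cor S M F G v .left
      have h2 := lab_cor S M F G w .left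
      have h3 : S.D.region (some v, .left) = S.D.region (some w, .left) := by
        have := region_of_sameSide S.D (AltDiagram.SameSide.underLeft (D := S.D) (some v))
        simpa [S.pos, h] using this
      exact h1.trans ((congrArg Sum.inl h3).trans h2.symm)
    · rw [LL_inc, LL_inc, (G v).l3, (G w).l4]
      have h1 := lab_cor S M F G v .front
      have h2 := lab_cor S M F G w .back
      have h3 : S.D.region (some v, .front) = S.D.region (some w, .back) := by
        have := region_of_sameSide S.D (AltDiagram.SameSide.underRight (D := S.D) (some v))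
        simpa [S.pos, h] using this
      exact h1.trans ((congrArg Sum.inl h3).trans h2.symm)
    · rw [LL_inc, LL_inc, (G v).t1 rfl, (G w).t2 rfl]
      have h1 := lab_cor S M F G v .front
      have h2 := lab_cor S M F G w .back
      have h3 : S.D.region (some v, .front) = S.D.region (some w, .back) := by
        have := region_of_sameSide S.D (AltDiagram.SameSide.overLeft (D := S.D) (some v))
        simpa [S.pos, h] using this
      exact h1.trans ((congrArg Sum.inl h3).trans h2.symm)
    · rw [LL_inc, LL_inc, (G v).t3 rfl, (G w).t4 rfl]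
      have h1 := lab_cor S M F G v .right
      have h2 := lab_cor S M F G w .right
      have h3 : S.D.region (some v, .right) = S.D.region (some w, .right) := by
        have := region_of_sameSide S.D (AltDiagram.SameSide.overRight (D := S.D) (some v))
        simpa [S.pos, h] using this
      exact h1.trans ((congrArg Sum.inl h3).trans h2.symm)
  refine ⟨sound _ _, ?_⟩
  intro hLL
  -- inner paths
  have inner : ∀ (v : V) (c c' : (M v).V × Corner), (G v).ρ c = (G v).ρ c' →
      Relation.EqvGen (Opn true (fill S.D S.l S.r M).D (fill S.D S.l S.r M).l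
        (fill S.D S.l S.r M).r) (inc v c) (inc v c') := by
    intro v c c' h
    have h1 := (G v).conn.1 c c' h
    induction h1 with
    | rel a b hab =>
      exact Relation.EqvGen.rel _ _ ((hEdge S M _ _).2 (Or.inl ⟨v, a, b, hab, rfl, rfl⟩))
    | refl a => exact Relation.EqvGen.refl _
    | symm a b hab ih =>
      exact Relation.EqvGen.symm _ _ (ih h.symm)
    | trans a b d hab hbd ih1 ih2 =>
      have hs : ∀ a b, Relation.EqvGen (Opn true (M v).D (M v).l (M v).r) a b →
          (G v).ρ a = (G v).ρ b := by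
        intro a b hab
        induction hab with
        | rel a b hab => exact (G v).sound _ _ hab
        | refl a => rfl
        | symm a b _ ih => exact ih.symm
        | trans a b c _ _ ih1 ih2 => exact ih1.trans ih2
      exact Relation.EqvGen.trans _ _ _ (ih1 (hs _ _ hab)) (ih2 (hs _ _ hbd))
  rw [LL_inc, LL_inc] at hLL
  rcases lab_cases S M F G v ((G v).ρ c) with ⟨X, hX⟩ | ⟨h, hi⟩
  · rcases lab_cases S M F G v' ((G v').ρ c') with ⟨X', hX'⟩ | ⟨h', hi'⟩
    · rw [hX, hX', lab_cor, lab_cor] at hLL
      have hreg : S.D.region (some v, X) = S.D.region (some v', X') := Sum.inl.inj hLL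
      -- the function of FEXT
      let R := Relation.EqvGen.setoid (Opn true (fill S.D S.l S.r M).D (fill S.D S.l S.r M).l
        (fill S.D S.l S.r M).r)
      let f : V × Corner → Quotient R := fun p =>
        Quotient.mk R (inc p.1 ((G p.1).surj (cor M F G p.1 p.2)).choose)
      have hf : ∀ (v : V) (X : Corner) (c : (M v).V × Corner), (G v).ρ c = cor M F G v X →
          Quotient.mk R (inc v c) = f (v, X) := by
        intro v X c hc
        apply Quotient.sound
        exact inner v _ _ (hc.trans ((G v).surj (cor M F G v X)).choose_spec.symm)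
      have hinv : ∀ a b, S.sm a b → f a = f b := by
        rintro ⟨a, Xa⟩ ⟨b, Xb⟩ hab
        have hq : ∀ x y, Opn true (fill S.D S.l S.r M).D (fill S.D S.l S.r M).l
            (fill S.D S.l S.r M).r x y → Quotient.mk R x = Quotient.mk R y :=
          fun x y h => Quotient.sound (Relation.EqvGen.rel _ _ h)
        rcases sameSide_cases S hab with ⟨w, h1, h2⟩ | ⟨w, h1, h2⟩ | ⟨w, h1, h2⟩ | ⟨w, h1, h2⟩
        · simp only [Prod.mk.injEq] at h1 h2
          obtain ⟨rfl, rfl⟩ := h1
          obtain ⟨h2, rfl⟩ := h2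
          rw [← hf a .front _ ((G a).t1 rfl), ← hf b .back _ ((G b).t2 rfl)]
          exact hq _ _ ((hEdge S M _ _).2 (Or.inr (Or.inr ⟨a, b, h2.symm,
            Or.inl ⟨rfl, rfl⟩⟩)))
        · simp only [Prod.mk.injEq] at h1 h2
          obtain ⟨rfl, rfl⟩ := h1
          obtain ⟨h2, rfl⟩ := h2
          rw [← hf a .right _ ((G a).t3 rfl), ← hf b .right _ ((G b).t4 rfl)]
          exact hq _ _ ((hEdge S M _ _).2 (Or.inr (Or.inr ⟨a, b, h2.symm,
            Or.inr ⟨rfl, rfl⟩⟩)))
        · simp only [Prod.mk.injEq] at h1 h2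
          obtain ⟨rfl, rfl⟩ := h1
          obtain ⟨h2, rfl⟩ := h2
          rw [← hf a .left _ (G a).l1, ← hf b .left _ (G b).l2]
          exact hq _ _ ((hEdge S M _ _).2 (Or.inr (Or.inl ⟨a, b, h2.symm,
            Or.inl ⟨rfl, rfl⟩⟩)))
        · simp only [Prod.mk.injEq] at h1 h2
          obtain ⟨rfl, rfl⟩ := h1
          obtain ⟨h2, rfl⟩ := h2
          rw [← hf a .front _ (G a).l3, ← hf b .back _ (G b).l4]
          exact hq _ _ ((hEdge S M _ _).2 (Or.inr (Or.inl ⟨a, b, h2.symm,
            Or.inr ⟨rfl, rfl⟩⟩)))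
      have hfin := hExt S (Quotient R) f hinv v v' X X' hreg
      rw [← hf v X c hX, ← hf v' X' c' hX'] at hfin
      exact Quotient.exact hfin
    · rw [hX, lab_cor, hi'] at hLL
      exact absurd hLL (by simp)
  · rcases lab_cases S M F G v' ((G v').ρ c') with ⟨X', hX'⟩ | ⟨h', hi'⟩
    · rw [hX', lab_cor, hi] at hLL
      exact absurd hLL (by simp)
    · rw [hi, hi'] at hLL
      have h3 := Sum.inr.inj hLL
      have h4 : v = v' := congrArg Sigma.fst h3
      subst h4
      have h5 := eq_of_heq (Sigma.mk.inj h3).2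
      exact inner v c c' (congrArg Subtype.val h5)

end Pool.Agent.Helper62.PG
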